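import Pool.Agent.R776.TP.Pack

set_option autoImplicit false

/-! # Packing arbitrary families of trees into complete graphs -/

namespace Pool.Agent.Results.MP_80c395_co.HalfOfTheEdges

open Finset

/-- The graphs `T i` pack into the complete graph on `N` vertices: there are injective placements
such that no edge is used by two of the graphs. -/
def Packs {k : ℕ} {m : Fin k → ℕ} (T : (i : Fin k) → SimpleGraph (Fin (m i))) (N : ℕ) : Prop :=
  ∃ f : (i : Fin k) → (Fin (m i) ↪ Fin N),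
    ∀ i j : Fin k, i ≠ j → ∀ (a b : Fin (m i)) (c d : Fin (m j)),
      (T i).Adj a b → (T j).Adj c d → s(f i a, f i b) ≠ s(f j c, f j d)

theorem tree_ncard {q : ℕ} (T : SimpleGraph (Fin q)) (hT : T.IsTree) :
    T.edgeSet.ncard + 1 = q := by
  classical
  have h2 : T.edgeFinset.card + 1 = Fintype.card (Fin q) := hT.card_edgeFinset
  rw [← SimpleGraph.coe_edgeFinset, Set.ncard_coe_finset, h2, Fintype.card_fin]

theorem general (N k r : ℕ) (hN : 2 ≤ N) (m : Fin k → ℕ)
    (T : (i : Fin k) → SimpleGraph (Fin (m i))) (hT : ∀ i, (T i).IsTree)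
    (hm : ∀ i, m i ≤ r + 1)
    (hB : 2 * ∑ i, (T i).edgeSet.ncard + r * (N - 2) < N ^ 2) : Packs T N := by
  classical
  have : Nonempty (Fin N) := ⟨⟨0, by omega⟩⟩
  have hm1 : ∀ i, (T i).edgeSet.ncard = m i - 1 ∧ 1 ≤ m i := by
    intro i
    have := tree_ncard (T i) (hT i)
    omega
  set a : ℕ → ℕ := fun j => if h : j < k then m ⟨j, h⟩ - 1 else 0 with ha
  have hval : ∀ i : Fin k, a i = m i - 1 := by
    intro i
    simp only [ha, i.2, dif_pos]
  have hval' : ∀ i : Fin k, a i + 1 = m i := by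
    intro i
    rw [hval i]
    have := (hm1 i).2
    omega
  have htot : ∑ i ∈ range k, a i = ∑ i, (T i).edgeSet.ncard := by
    rw [Finset.sum_range]
    apply Finset.sum_congr rfl
    intro i _
    rw [hval i, (hm1 i).1]
  have hpart : ∀ j, j < k → ∑ i ∈ range j, a i + a j ≤ ∑ i ∈ range k, a i := by
    intro j hj
    rw [← Finset.sum_range_succ]
    apply Finset.sum_le_sum_of_subset
    intro x hx
    rw [Finset.mem_range] at hx ⊢
    omega
  obtain ⟨f, f1, f2, -⟩ := R776.TP.pack_seq (V := Fin N) ⊤ a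
    (fun j => if h : j < k then (T ⟨j, h⟩).comap (Fin.cast (hval' ⟨j, h⟩)) else ⊤) k (by
    intro j hj
    simp only [hj, dif_pos]
    have e : (T ⟨j, hj⟩).comap (Fin.cast (hval' ⟨j, hj⟩)) ≃g T ⟨j, hj⟩ :=
      ⟨finCongr (hval' ⟨j, hj⟩), by intro x y; rfl⟩
    exact e.isTree_iff.2 (hT ⟨j, hj⟩)) (by
    intro j hj h1
    have h2 := hpart j hj
    rw [htot] at h2
    have h3 : a j ≤ r := by
      have h4 := hval ⟨j, hj⟩
      have h5 := hm ⟨j, hj⟩
      simp only at h4
      omega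
    rw [R776.TP.top_ncard, Nat.card_fin]
    obtain ⟨i, hi⟩ : ∃ i, a j = i + 1 := ⟨a j - 1, by omega⟩
    obtain ⟨n', hn'⟩ : ∃ n', N = n' + 2 := ⟨N - 2, by omega⟩
    rw [hi] at h2 h3 ⊢
    have e1 : i + 1 - 1 = i := by omega
    rw [e1]
    subst hn'
    have e2 : n' + 2 - 1 = n' + 1 := by omega
    have e3 : n' + 2 - 2 = n' := by omega
    rw [e2]
    rw [e3] at hB
    have h6 : (i + 1) * n' ≤ r * n' := Nat.mul_le_mul_right _ h3
    nlinarith)
  refine ⟨fun i => ⟨f i ∘ Fin.cast (hval' i).symm,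
    ((f1 i i.2).1).comp (Fin.cast_injective _)⟩, ?_⟩
  intro i j hij x y z w hxy hzw
  have key : ∀ (i : Fin k) (x y : Fin (m i)), (T i).Adj x y →
      (if h : (i : ℕ) < k then (T ⟨i, h⟩).comap (Fin.cast (hval' ⟨i, h⟩)) else ⊤).Adj
        (Fin.cast (hval' i).symm x) (Fin.cast (hval' i).symm y) := by
    intro i x y h
    simp only [i.2, dif_pos, SimpleGraph.comap_adj, Fin.cast_cast, Fin.cast_eq_self]
    exact h
  exact f2 i j i.2 j.2 (fun h => hij (Fin.ext h)) _ _ _ _ (key i x y hxy) (key j z w hzw)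

/-- Packing arbitrary trees into a complete graph.

* If each of the trees has at most `r` edges and the total number `B` of their edges satisfies
  `2 B + r (N - 2) < N²`, they pack into `K_N` (`N ≥ 2`), whatever their shapes.
* In particular trees of order at most `n + 1` pack into `K_{2n+1}` if they have at most
  `n² + 5 n / 2` edges in total. -/
theorem result :
    (∀ (N k r : ℕ), 2 ≤ N → ∀ (m : Fin k → ℕ) (T : (i : Fin k) → SimpleGraph (Fin (m i))),
      (∀ i, (T i).IsTree) → (∀ i, m i ≤ r + 1) →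
      2 * ∑ i, (T i).edgeSet.ncard + r * (N - 2) < N ^ 2 → Packs T N) ∧
    (∀ (n k : ℕ), 1 ≤ n → ∀ (m : Fin k → ℕ) (T : (i : Fin k) → SimpleGraph (Fin (m i))),
      (∀ i, (T i).IsTree) → (∀ i, m i ≤ n + 1) →
      2 * ∑ i, (T i).edgeSet.ncard ≤ 2 * n ^ 2 + 5 * n → Packs T (2 * n + 1)) := by
  refine ⟨fun N k r hN m T hT hm hB => general N k r hN m T hT hm hB, ?_⟩
  intro n k hn m T hT hm hB
  apply general (2 * n + 1) k n (by omega) m T hT hm
  have e : 2 * n + 1 - 2 = 2 * n - 1 := by omega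
  rw [e]
  obtain ⟨n', rfl⟩ : ∃ n', n = n' + 1 := ⟨n - 1, by omega⟩
  have e2 : 2 * (n' + 1) - 1 = 2 * n' + 1 := by omega
  rw [e2]
  nlinarith

end Pool.Agent.Results.MP_80c395_co.HalfOfTheEdges
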